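import Pool.Agent.H58.Heat.Defs

/-! Module A1 of project HEAT (helper58): maximum likelihood over log-Lipschitz densities. -/

namespace Pool.Agent.H91.Heat

open MeasureTheory ProbabilityTheory Filter Topology Pool.Agent.H58.Heat

theorem int_exp_norm {n : ℕ} (C : ℝ) :
    Integrable (fun x : E n => Real.exp (C * ‖x‖)) (gm n) := by
  obtain ⟨c, hc, hi⟩ := IsGaussian.exists_integrable_exp_sq (gm n)
  refine (hi.const_mul (Real.exp (C ^ 2 / (4 * c)))).mono'
    (by fun_prop) (ae_of_all _ fun x => ?_)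
  rw [Real.norm_eq_abs, abs_of_pos (Real.exp_pos _), ← Real.exp_add]
  apply Real.exp_le_exp.mpr
  have h1 : 0 ≤ c * (‖x‖ - C / (2 * c)) ^ 2 := by positivity
  have h2 : c * (‖x‖ - C / (2 * c)) ^ 2 = c * ‖x‖ ^ 2 - C * ‖x‖ + C ^ 2 / (4 * c) := by
    field_simp
    ring
  linarith

theorem int_growth {n : ℕ} (f : E n → ℝ) (hf : Continuous f) (A B : ℝ)
    (h : ∀ x, |f x| ≤ A * Real.exp (B * ‖x‖)) : Integrable f (gm n) :=
  ((int_exp_norm B).const_mul A).mono' hf.aestronglyMeasurable (ae_of_all _ h)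

theorem _root_.Pool.Agent.H58.Heat.Lip.h91_cont {n : ℕ} {L : ℝ} {g : E n → ℝ} (hg : Lip L g) : Continuous g := by
  have h : LipschitzWith (Real.toNNReal L) g := by
    apply LipschitzWith.of_dist_le_mul
    intro x y
    rw [Real.dist_eq, dist_eq_norm]
    refine (hg x y).trans ?_
    exact mul_le_mul_of_nonneg_right (Real.le_coe_toNNReal L) (norm_nonneg _)
  exact h.continuous

theorem _root_.Pool.Agent.H58.Heat.Lip.h91_bd {n : ℕ} {L : ℝ} {g : E n → ℝ} (hg : Lip L g) (x : E n) :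
    |g x| ≤ |g 0| + L * ‖x‖ := by
  have h := hg x 0
  rw [sub_zero] at h
  have := abs_sub_abs_le_abs_sub (g x) (g 0)
  linarith

theorem _root_.Pool.Agent.H58.Heat.Lip.h91_int_rho {n : ℕ} {ρ : Measure (E n)} [IsProbabilityMeasure ρ]
    (hρ : Integrable (fun x => ‖x‖) ρ) {L : ℝ} {g : E n → ℝ} (hg : Lip L g) :
    Integrable g ρ := by
  refine ((integrable_const |g 0|).add (hρ.const_mul L)).mono' hg.h91_cont.aestronglyMeasurable
    (ae_of_all _ fun x => ?_)
  exact hg.h91_bd x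

theorem _root_.Pool.Agent.H58.Heat.Lip.h91_int_exp {n : ℕ} {L : ℝ} {g : E n → ℝ} (hg : Lip L g) :
    Integrable (fun x => Real.exp (g x)) (gm n) := by
  refine int_growth _ (Real.continuous_exp.comp hg.h91_cont) (Real.exp |g 0|) L fun x => ?_
  rw [abs_of_pos (Real.exp_pos _), ← Real.exp_add]
  exact Real.exp_le_exp.mpr ((le_abs_self _).trans (hg.h91_bd x))

theorem _root_.Pool.Agent.H58.Heat.Lip.h91_int_exp_pos {n : ℕ} {L : ℝ} {g : E n → ℝ} (hg : Lip L g) :
    0 < ∫ x, Real.exp (g x) ∂gm n := integral_exp_pos hg.h91_int_exp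

theorem _root_.Pool.Agent.H58.Heat.Lip.h91_add_const {n : ℕ} {L : ℝ} {g : E n → ℝ} (hg : Lip L g) (c : ℝ) :
    Lip L (fun x => g x + c) := fun x y => by
  have : g x + c - (g y + c) = g x - g y := by ring
  rw [this]
  exact hg x y

theorem _root_.Pool.Agent.H58.Heat.Lip.h91_mix {n : ℕ} {L : ℝ} {g h : E n → ℝ} (hg : Lip L g) (hh : Lip L h) {s : ℝ}
    (hs : 0 ≤ s) (hs1 : s ≤ 1) : Lip L (fun x => g x + s * (h x - g x)) := fun x y => by
  have : g x + s * (h x - g x) - (g y + s * (h y - g y)) =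
      (1 - s) * (g x - g y) + s * (h x - h y) := by ring
  rw [this]
  calc |(1 - s) * (g x - g y) + s * (h x - h y)|
      ≤ |(1 - s) * (g x - g y)| + |s * (h x - h y)| := abs_add_le _ _
    _ = (1 - s) * |g x - g y| + s * |h x - h y| := by
        rw [abs_mul, abs_mul, abs_of_nonneg hs, abs_of_nonneg (by linarith)]
    _ ≤ (1 - s) * (L * ‖x - y‖) + s * (L * ‖x - y‖) := by
        have h1 := hg x y
        have h2 := hh x y
        have h3 : 0 ≤ 1 - s := by linarith
        gcongr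
    _ = L * ‖x - y‖ := by ring

/-- The functional. -/
noncomputable def J {n : ℕ} (ρ : Measure (E n)) (g : E n → ℝ) : ℝ :=
  ∫ x, g x ∂ρ - Real.log (∫ x, Real.exp (g x) ∂gm n)

theorem J_add_const {n : ℕ} {ρ : Measure (E n)} [IsProbabilityMeasure ρ]
    (hρ : Integrable (fun x => ‖x‖) ρ) {L : ℝ} {g : E n → ℝ} (hg : Lip L g) (c : ℝ) :
    J ρ (fun x => g x + c) = J ρ g := by
  unfold J
  have h1 : ∫ x, (g x + c) ∂ρ = ∫ x, g x ∂ρ + c := by
    rw [integral_add (hg.h91_int_rho hρ) (integrable_const c)]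
    simp
  rw [h1]
  simp only [Real.exp_add]
  rw [integral_mul_const, Real.log_mul hg.h91_int_exp_pos.ne' (Real.exp_pos c).ne', Real.log_exp]
  simp

/-- Sequential compactness of the normalised `L`-Lipschitz functions. -/
theorem seq_compact {n : ℕ} (L : ℝ) (hL : 0 ≤ L) (g : ℕ → E n → ℝ) (hg : ∀ k, Lip L (g k))
    (h0 : ∀ k, g k 0 = 0) : ∃ (φ : ℕ → ℕ) (g' : E n → ℝ), StrictMono φ ∧ Lip L g' ∧ g' 0 = 0 ∧
      ∀ x, Tendsto (fun k => g (φ k) x) atTop (𝓝 (g' x)) := by
  set X : ℕ → E n := TopologicalSpace.denseSeq (E n) with hX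
  have hK : IsCompact (Set.pi Set.univ fun i : ℕ => Set.Icc (-(L * ‖X i‖)) (L * ‖X i‖)) :=
    isCompact_univ_pi fun i => isCompact_Icc
  obtain ⟨u, hu, φ, hφ, hlim⟩ := hK.tendsto_subseq (x := fun k i => g k (X i)) (fun k i _ => by
    have := (hg k).h91_bd (X i)
    rw [h0 k, abs_zero, zero_add] at this
    exact abs_le.mp this)
  have hlim' : ∀ i, Tendsto (fun k => g (φ k) (X i)) atTop (𝓝 (u i)) := fun i => by
    exact (tendsto_pi_nhds.mp hlim) i
  -- convergence everywhere
  have hconv : ∀ x, ∃ y, Tendsto (fun k => g (φ k) x) atTop (𝓝 y) := by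
    intro x
    apply cauchySeq_tendsto_of_complete
    rw [Metric.cauchySeq_iff']
    intro ε hε
    obtain ⟨i, hi⟩ : ∃ i, ‖x - X i‖ < ε / (4 * (L + 1)) := by
      have hd := TopologicalSpace.denseRange_denseSeq (E n)
      have hpos : 0 < ε / (4 * (L + 1)) := by positivity
      obtain ⟨i, hi⟩ := hd.exists_dist_lt x hpos
      exact ⟨i, by rwa [dist_eq_norm] at hi⟩
    have hLi : L * ‖x - X i‖ ≤ ε / 4 := by
      have h1 : L * ‖x - X i‖ ≤ (L + 1) * (ε / (4 * (L + 1))) :=
        mul_le_mul (by linarith) hi.le (norm_nonneg _) (by linarith)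
      have h2 : (L + 1) * (ε / (4 * (L + 1))) = ε / 4 := by
        have : L + 1 ≠ 0 := by linarith
        field_simp
      linarith
    have hc := (hlim' i).cauchySeq
    rw [Metric.cauchySeq_iff'] at hc
    obtain ⟨N, hN⟩ := hc (ε / 4) (by linarith)
    refine ⟨N, fun k hk => ?_⟩
    have h1 := hN k hk
    rw [Real.dist_eq] at h1 ⊢
    have h2 := (hg (φ k)) x (X i)
    have h3 := (hg (φ N)) x (X i)
    have h4 : g (φ k) x - g (φ N) x = (g (φ k) x - g (φ k) (X i)) +
        (g (φ k) (X i) - g (φ N) (X i)) - (g (φ N) x - g (φ N) (X i)) := by ring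
    rw [h4]
    rw [abs_le] at h2 h3
    rw [abs_lt] at h1 ⊢
    constructor <;> linarith [h1.1, h1.2, h2.1, h2.2, h3.1, h3.2]
  choose g' hg' using hconv
  refine ⟨φ, g', hφ, ?_, ?_, hg'⟩
  · intro x y
    exact le_of_tendsto ((hg' x).sub (hg' y)).abs (Eventually.of_forall fun k => hg (φ k) x y)
  · refine tendsto_nhds_unique (hg' 0) ?_
    simp [h0]

theorem J_cont {n : ℕ} {ρ : Measure (E n)} [IsProbabilityMeasure ρ]
    (hρ : Integrable (fun x => ‖x‖) ρ) (L : ℝ) (g : ℕ → E n → ℝ)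
    (hg : ∀ k, Lip L (g k)) (h0 : ∀ k, g k 0 = 0) (g' : E n → ℝ) (hg' : Lip L g')
    (hlim : ∀ x, Tendsto (fun k => g k x) atTop (𝓝 (g' x))) :
    Tendsto (fun k => J ρ (g k)) atTop (𝓝 (J ρ g')) := by
  have hb : ∀ k x, |g k x| ≤ L * ‖x‖ := fun k x => by
    have := (hg k).h91_bd x
    rwa [h0 k, abs_zero, zero_add] at this
  have h1 : Tendsto (fun k => ∫ x, g k x ∂ρ) atTop (𝓝 (∫ x, g' x ∂ρ)) := by
    refine tendsto_integral_of_dominated_convergence (fun x => L * ‖x‖)
      (fun k => (hg k).h91_cont.aestronglyMeasurable) (hρ.const_mul L)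
      (fun k => ae_of_all _ (hb k)) (ae_of_all _ hlim)
  have h2 : Tendsto (fun k => ∫ x, Real.exp (g k x) ∂gm n) atTop
      (𝓝 (∫ x, Real.exp (g' x) ∂gm n)) := by
    refine tendsto_integral_of_dominated_convergence (fun x => Real.exp (L * ‖x‖))
      (fun k => (Real.continuous_exp.comp (hg k).h91_cont).aestronglyMeasurable) (int_exp_norm L)
      (fun k => ae_of_all _ fun x => ?_)
      (ae_of_all _ fun x => (Real.continuous_exp.tendsto _).comp (hlim x))
    rw [Real.norm_eq_abs, abs_of_pos (Real.exp_pos _)]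
    exact Real.exp_le_exp.mpr ((le_abs_self _).trans (hb k x))
  exact h1.sub (h2.log hg'.h91_int_exp_pos.ne')

theorem exists_max {n : ℕ} (ρ : Measure (E n)) [IsProbabilityMeasure ρ]
    (hρ : Integrable (fun x => ‖x‖) ρ) (L : ℝ) (hL : 0 ≤ L) :
    ∃ g : E n → ℝ, Lip L g ∧ ∀ h : E n → ℝ, Lip L h → J ρ h ≤ J ρ g := by
  set K : Set (E n → ℝ) := {g | Lip L g ∧ g 0 = 0} with hK
  have hne : (J ρ '' K).Nonempty := by
    refine ⟨_, Set.mem_image_of_mem _ (show (fun _ : E n => (0 : ℝ)) ∈ K from ⟨?_, rfl⟩)⟩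
    intro x y
    simp only [sub_self, abs_zero]
    positivity
  have hbdd : BddAbove (J ρ '' K) := by
    refine ⟨∫ x, L * ‖x‖ ∂ρ - Real.log (∫ x, Real.exp (-L * ‖x‖) ∂gm n), ?_⟩
    rintro _ ⟨g, ⟨hg, h0⟩, rfl⟩
    have hb : ∀ x, |g x| ≤ L * ‖x‖ := fun x => by
      have := hg.h91_bd x
      rwa [h0, abs_zero, zero_add] at this
    unfold J
    apply sub_le_sub
    · exact integral_mono (hg.h91_int_rho hρ) (hρ.const_mul L) fun x => (le_abs_self _).trans (hb x)
    · apply Real.log_le_log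
      · exact integral_exp_pos (int_exp_norm (-L))
      · refine integral_mono (int_exp_norm (-L)) hg.h91_int_exp fun x => ?_
        apply Real.exp_le_exp.mpr
        have := (abs_le.mp (hb x)).1
        linarith
  obtain ⟨u, -, hu, huK⟩ := exists_seq_tendsto_sSup hne hbdd
  choose g hgK hgu using huK
  obtain ⟨φ, g', hφ, hg', h0', hlim⟩ := seq_compact L hL g (fun k => (hgK k).1)
    (fun k => (hgK k).2)
  have h1 : Tendsto (fun k => J ρ (g (φ k))) atTop (𝓝 (J ρ g')) :=
    J_cont hρ L (fun k => g (φ k)) (fun k => (hgK _).1) (fun k => (hgK _).2) g' hg' hlim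
  have h2 : Tendsto (fun k => J ρ (g (φ k))) atTop (𝓝 (sSup (J ρ '' K))) := by
    have : (fun k => J ρ (g (φ k))) = u ∘ φ := by
      funext k
      exact hgu (φ k)
    rw [this]
    exact hu.comp hφ.tendsto_atTop
  have h3 : J ρ g' = sSup (J ρ '' K) := tendsto_nhds_unique h1 h2
  refine ⟨g', hg', fun h hh => ?_⟩
  rw [h3, ← J_add_const hρ hh (-h 0)]
  apply le_csSup hbdd
  exact Set.mem_image_of_mem _ ⟨hh.h91_add_const _, by simp⟩

theorem abs_exp_sub_one_le (x : ℝ) : |Real.exp x - 1| ≤ |x| * Real.exp |x| := by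
  rcases le_total 0 x with hx | hx
  · rw [abs_of_nonneg hx, abs_of_nonneg (by linarith [Real.one_le_exp hx])]
    have h1 := Real.add_one_le_exp (-x)
    have h2 : Real.exp x * Real.exp (-x) = 1 := by
      rw [← Real.exp_add]; simp
    have h3 := Real.exp_pos x
    nlinarith
  · have h1 := Real.add_one_le_exp x
    have h2 : Real.exp x ≤ 1 := Real.exp_le_one_iff.mpr hx
    rw [abs_of_nonpos hx, abs_of_nonpos (by linarith)]
    have h3 : 1 ≤ Real.exp (-x) := Real.one_le_exp (by linarith)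
    nlinarith

theorem A1 {n : ℕ} (ρ : Measure (E n)) [IsProbabilityMeasure ρ]
    (hρ : Integrable (fun x => ‖x‖) ρ) (L : ℝ) (hL : 0 ≤ L) : ∃ g : E n → ℝ, KKT ρ L g := by
  obtain ⟨g₀, hg₀, hmax⟩ := exists_max ρ hρ L hL
  set c : ℝ := -Real.log (∫ x, Real.exp (g₀ x) ∂gm n) with hc
  set g : E n → ℝ := fun x => g₀ x + c with hg
  have hgL : Lip L g := hg₀.h91_add_const c
  have hone : ∫ x, Real.exp (g x) ∂gm n = 1 := by
    rw [hg]
    simp only [Real.exp_add]
    rw [integral_mul_const, hc, Real.exp_neg, Real.exp_log hg₀.h91_int_exp_pos]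
    exact mul_inv_cancel₀ hg₀.h91_int_exp_pos.ne'
  have hmax' : ∀ h : E n → ℝ, Lip L h → J ρ h ≤ ∫ x, g x ∂ρ := by
    intro h hh
    have h1 := hmax h hh
    rw [← J_add_const hρ hg₀ c] at h1
    refine h1.trans (le_of_eq ?_)
    unfold J
    change ∫ x, g x ∂ρ - Real.log (∫ x, Real.exp (g x) ∂gm n) = _
    rw [hone, Real.log_one, sub_zero]
  refine ⟨g, hgL, hone, fun h hh => ?_⟩
  set D : E n → ℝ := fun x => h x - g x with hD
  have hDc : Continuous D := hh.h91_cont.sub hgL.h91_cont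
  have hDb : ∀ x, |D x| ≤ (|h 0| + |g 0|) + 2 * L * ‖x‖ := fun x => by
    have h1 := hh.h91_bd x
    have h2 := hgL.h91_bd x
    have h3 : |D x| ≤ |h x| + |g x| := abs_sub _ _
    linarith
  set A : ℝ := 2 * (|h 0| + |g 0|) + |g 0| with hA
  have hbig : ∀ x, 2 * |D x| + |g x| ≤ A + 5 * L * ‖x‖ := fun x => by
    have h1 := hDb x
    have h2 := hgL.h91_bd x
    rw [hA]
    linarith
  have hint2 : Integrable (fun x => D x ^ 2 * Real.exp |D x| * Real.exp (g x)) (gm n) := by
    refine int_growth _ (((hDc.pow 2).mul (Real.continuous_exp.comp hDc.abs)).mul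
      (Real.continuous_exp.comp hgL.h91_cont)) (2 * Real.exp A) (5 * L) fun x => ?_
    rw [abs_of_nonneg (by positivity)]
    have h1 : D x ^ 2 ≤ 2 * Real.exp |D x| := by
      have := Real.quadratic_le_exp_of_nonneg (abs_nonneg (D x))
      rw [sq_abs] at this
      have := abs_nonneg (D x)
      linarith
    calc D x ^ 2 * Real.exp |D x| * Real.exp (g x)
        ≤ (2 * Real.exp |D x|) * Real.exp |D x| * Real.exp (g x) := by gcongr
      _ = 2 * Real.exp (2 * |D x| + g x) := by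
        rw [Real.exp_add (2 * |D x|) (g x), two_mul |D x|, Real.exp_add |D x| |D x|]; ring
      _ ≤ 2 * Real.exp (A + 5 * L * ‖x‖) := by
        have := hbig x
        have h2 := le_abs_self (g x)
        exact mul_le_mul_of_nonneg_left (Real.exp_le_exp.mpr (by linarith)) (by norm_num)
      _ = 2 * Real.exp A * Real.exp (5 * L * ‖x‖) := by rw [Real.exp_add]; ring
  have hint1 : Integrable (fun x => D x * Real.exp (g x)) (gm n) := by
    refine int_growth _ (hDc.mul (Real.continuous_exp.comp hgL.h91_cont)) (Real.exp A) (5 * L)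
      fun x => ?_
    rw [abs_mul, abs_of_pos (Real.exp_pos _)]
    have h1 : |D x| ≤ Real.exp |D x| := by linarith [Real.add_one_le_exp |D x|]
    calc |D x| * Real.exp (g x) ≤ Real.exp |D x| * Real.exp (g x) := by gcongr
      _ = Real.exp (|D x| + g x) := by rw [Real.exp_add |D x| (g x)]
      _ ≤ Real.exp (A + 5 * L * ‖x‖) := by
        have := hbig x
        have h2 := le_abs_self (g x)
        have h3 := abs_nonneg (D x)
        exact Real.exp_le_exp.mpr (by linarith)
      _ = Real.exp A * Real.exp (5 * L * ‖x‖) := by rw [Real.exp_add]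
  -- the basic inequality
  have hmain : ∀ s : ℝ, 0 < s → s ≤ 1 → ∫ x, D x ∂ρ ≤ ∫ x, D x * Real.exp (g x) ∂gm n +
      s * ∫ x, D x ^ 2 * Real.exp |D x| * Real.exp (g x) ∂gm n := by
    intro s hs hs1
    have hmix := hgL.h91_mix hh hs.le hs1
    have h1 := hmax' _ hmix
    unfold J at h1
    have hDρ : Integrable D ρ := (hh.h91_int_rho hρ).sub (hgL.h91_int_rho hρ)
    have h2 : ∫ x, (g x + s * (h x - g x)) ∂ρ = ∫ x, g x ∂ρ + s * ∫ x, D x ∂ρ := by
      rw [integral_add (hgL.h91_int_rho hρ) (hDρ.const_mul s), integral_const_mul]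
    rw [h2] at h1
    have h3 : Real.log (∫ x, Real.exp (g x + s * (h x - g x)) ∂gm n) ≤
        ∫ x, Real.exp (g x + s * (h x - g x)) ∂gm n - 1 :=
      Real.log_le_sub_one_of_pos hmix.h91_int_exp_pos
    have h4 : ∫ x, Real.exp (g x + s * (h x - g x)) ∂gm n ≤
        ∫ x, (Real.exp (g x) + (s * (D x * Real.exp (g x)) +
          s ^ 2 * (D x ^ 2 * Real.exp |D x| * Real.exp (g x)))) ∂gm n := by
      refine integral_mono hmix.h91_int_exp
        (hgL.h91_int_exp.add ((hint1.const_mul s).add (hint2.const_mul (s ^ 2)))) fun x => ?_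
      change Real.exp (g x + s * D x) ≤ _
      rw [Real.exp_add (g x) (s * D x)]
      have h5 : Real.exp (s * D x) - 1 ≤ s * D x * Real.exp (s * D x) := by
        have e1 := Real.add_one_le_exp (-(s * D x))
        have e2 : Real.exp (s * D x) * Real.exp (-(s * D x)) = 1 := by
          rw [← Real.exp_add]; simp
        have e3 := Real.exp_pos (s * D x)
        nlinarith
      have h6 : s * D x * (Real.exp (s * D x) - 1) ≤ s ^ 2 * D x ^ 2 * Real.exp |D x| := by
        have e1 := abs_exp_sub_one_le (s * D x)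
        have e2 : |s * D x| ≤ |D x| := by
          rw [abs_mul, abs_of_pos hs]
          exact mul_le_of_le_one_left (abs_nonneg _) hs1
        calc s * D x * (Real.exp (s * D x) - 1)
            ≤ |s * D x * (Real.exp (s * D x) - 1)| := le_abs_self _
          _ = |s * D x| * |Real.exp (s * D x) - 1| := abs_mul _ _
          _ ≤ |s * D x| * (|s * D x| * Real.exp |s * D x|) := by gcongr
          _ ≤ |s * D x| * (|s * D x| * Real.exp |D x|) := by gcongr
          _ = |s * D x| ^ 2 * Real.exp |D x| := by ring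
          _ = s ^ 2 * D x ^ 2 * Real.exp |D x| := by rw [sq_abs]; ring
      have h7 : Real.exp (s * D x) ≤ 1 + s * D x + s ^ 2 * D x ^ 2 * Real.exp |D x| := by
        linarith
      calc Real.exp (g x) * Real.exp (s * D x)
          ≤ Real.exp (g x) * (1 + s * D x + s ^ 2 * D x ^ 2 * Real.exp |D x|) := by gcongr
        _ = _ := by ring
    have h8 : ∫ x, (Real.exp (g x) + (s * (D x * Real.exp (g x)) +
          s ^ 2 * (D x ^ 2 * Real.exp |D x| * Real.exp (g x)))) ∂gm n =
        1 + (s * ∫ x, D x * Real.exp (g x) ∂gm n +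
          s ^ 2 * ∫ x, D x ^ 2 * Real.exp |D x| * Real.exp (g x) ∂gm n) := by
      have e0 : Integrable (fun x => s * (D x * Real.exp (g x)) +
          s ^ 2 * (D x ^ 2 * Real.exp |D x| * Real.exp (g x))) (gm n) :=
        (hint1.const_mul s).add (hint2.const_mul (s ^ 2))
      rw [integral_add hgL.h91_int_exp e0,
        integral_add (hint1.const_mul s) (hint2.const_mul (s ^ 2)), integral_const_mul,
        integral_const_mul, hone]
    have h9 : s * ∫ x, D x ∂ρ ≤ s * (∫ x, D x * Real.exp (g x) ∂gm n +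
      s * ∫ x, D x ^ 2 * Real.exp |D x| * Real.exp (g x) ∂gm n) := by
      rw [h8] at h4
      nlinarith
    exact le_of_mul_le_mul_left h9 hs
  -- let s tend to zero
  have hlim : Tendsto (fun s : ℝ => ∫ x, D x * Real.exp (g x) ∂gm n +
      s * ∫ x, D x ^ 2 * Real.exp |D x| * Real.exp (g x) ∂gm n) (𝓝[>] 0)
      (𝓝 (∫ x, D x * Real.exp (g x) ∂gm n)) := by
    have hcont : Continuous fun s : ℝ => ∫ x, D x * Real.exp (g x) ∂gm n +
      s * ∫ x, D x ^ 2 * Real.exp |D x| * Real.exp (g x) ∂gm n := by fun_prop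
    have h2 := (hcont.tendsto 0).mono_left (nhdsWithin_le_nhds (s := Set.Ioi 0))
    simpa using h2
  refine ge_of_tendsto hlim ?_
  have h01 : Set.Ioc (0 : ℝ) 1 ∈ 𝓝[>] (0 : ℝ) := Ioc_mem_nhdsGT one_pos
  filter_upwards [h01] with s hs
  exact hmain s hs.1 hs.2

end Pool.Agent.H91.Heat
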