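import Pool.Agent.H58.Heat.Defs

/-! Module C1 of project HEAT (helper58): complex analysis in a sector. -/

namespace Pool.Agent.H91.Heat

open Filter Topology

/-- Step 1: bound in the half plane `Re z ≥ 1`. -/
theorem half_plane (d K : ℕ) (a : ℕ → ℂ) (M α : ℝ)
    (h : ∀ z : ℂ, 0 < z.re → ‖∑ k ∈ Finset.Ico d K, a k * Complex.exp (-(z * k))‖ ≤
      M * Real.exp (α ^ 2 * ‖z‖ ^ 2 / z.re)) (hM : 0 ≤ M) (z : ℂ) (hz : 1 ≤ z.re) :
    ‖∑ k ∈ Finset.Ico d K, a k * Complex.exp (-(z * k))‖ ≤
      M * Real.exp (α ^ 2 * (1 + Real.pi ^ 2) + d - d * z.re) := by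
  set P : ℂ → ℂ := fun l => ∑ k ∈ Finset.Ico d K, a k * l ^ (k - d) with hP
  have hfac : ∀ z : ℂ, ∑ k ∈ Finset.Ico d K, a k * Complex.exp (-(z * k)) =
      Complex.exp (-z) ^ d * P (Complex.exp (-z)) := by
    intro z
    rw [hP]
    simp only
    rw [Finset.mul_sum]
    refine Finset.sum_congr rfl fun k hk => ?_
    rw [Finset.mem_Ico] at hk
    have h1 : Complex.exp (-(z * k)) = Complex.exp (-z) ^ k := by
      rw [← Complex.exp_nat_mul]
      congr 1
      ring
    rw [h1]
    have h2 : Complex.exp (-z) ^ k = Complex.exp (-z) ^ d * Complex.exp (-z) ^ (k - d) := by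
      rw [← pow_add]
      congr 1
      omega
    rw [h2]
    ring
  have hdiff : Differentiable ℂ P := by
    rw [hP]
    fun_prop
  have hfront : ∀ l ∈ frontier (Metric.ball (0 : ℂ) (Real.exp (-1))),
      ‖P l‖ ≤ M * Real.exp (α ^ 2 * (1 + Real.pi ^ 2) + d) := by
    intro l hl
    rw [frontier_ball (0 : ℂ) (Real.exp_pos (-1)).ne', mem_sphere_zero_iff_norm] at hl
    set w : ℂ := ⟨1, -Complex.arg l⟩ with hw
    have hexp : Complex.exp (-w) = l := by
      have h1 : -w = ((-1 : ℝ) : ℂ) + Complex.arg l * Complex.I := by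
        apply Complex.ext <;> simp [hw]
      rw [h1, Complex.exp_add, ← Complex.ofReal_exp, ← hl]
      exact Complex.norm_mul_exp_arg_mul_I l
    have h1 := h w (by simp [hw])
    rw [hfac w, hexp, norm_mul, norm_pow, hl] at h1
    have h2 : ‖w‖ ^ 2 ≤ 1 + Real.pi ^ 2 := by
      rw [Complex.sq_norm, Complex.normSq_apply]
      simp only [hw]
      have := Complex.abs_arg_le_pi l
      nlinarith [abs_le.mp this]
    have h3 : α ^ 2 * ‖w‖ ^ 2 / w.re ≤ α ^ 2 * (1 + Real.pi ^ 2) := by
      have : w.re = 1 := by simp [hw]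
      rw [this, div_one]
      exact mul_le_mul_of_nonneg_left h2 (sq_nonneg _)
    have h4 : Real.exp (-1) ^ d = Real.exp (-(d : ℝ)) := by
      rw [← Real.exp_nat_mul]
      congr 1
      ring
    rw [h4] at h1
    have h5 : ‖P l‖ = Real.exp d * (Real.exp (-(d : ℝ)) * ‖P l‖) := by
      rw [← mul_assoc, ← Real.exp_add]
      simp
    rw [h5]
    calc Real.exp d * (Real.exp (-(d : ℝ)) * ‖P l‖)
        ≤ Real.exp d * (M * Real.exp (α ^ 2 * ‖w‖ ^ 2 / w.re)) := by gcongr
      _ ≤ Real.exp d * (M * Real.exp (α ^ 2 * (1 + Real.pi ^ 2))) := by gcongr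
      _ = M * Real.exp (α ^ 2 * (1 + Real.pi ^ 2) + d) := by
        rw [Real.exp_add]; ring
  have hmax : ‖P (Complex.exp (-z))‖ ≤ M * Real.exp (α ^ 2 * (1 + Real.pi ^ 2) + d) := by
    refine Complex.norm_le_of_forall_mem_frontier_norm_le Metric.isBounded_ball
      hdiff.diffContOnCl hfront ?_
    rw [closure_ball (0 : ℂ) (Real.exp_pos (-1)).ne', mem_closedBall_zero_iff, Complex.norm_exp]
    apply Real.exp_le_exp.mpr
    simp only [Complex.neg_re]
    linarith
  rw [hfac z, norm_mul, norm_pow, Complex.norm_exp]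
  have h4 : Real.exp ((-z).re) ^ d = Real.exp (-(d * z.re)) := by
    rw [← Real.exp_nat_mul]
    congr 1
    simp
  rw [h4]
  calc Real.exp (-(d * z.re)) * ‖P (Complex.exp (-z))‖
      ≤ Real.exp (-(d * z.re)) * (M * Real.exp (α ^ 2 * (1 + Real.pi ^ 2) + d)) := by gcongr
    _ = M * Real.exp (α ^ 2 * (1 + Real.pi ^ 2) + d - d * z.re) := by
      rw [sub_eq_add_neg, Real.exp_add (α ^ 2 * (1 + Real.pi ^ 2) + d)]; ring

/-- Polar form of `w ^ (1/q)`. -/
theorem cpow_polar (w : ℂ) (q : ℝ) :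
    ‖w ^ ((q⁻¹ : ℝ) : ℂ)‖ = ‖w‖ ^ q⁻¹ ∧
      (w ^ ((q⁻¹ : ℝ) : ℂ)).re = ‖w‖ ^ q⁻¹ * Real.cos (Complex.arg w / q) := by
  constructor
  · rw [Complex.norm_cpow_real]
  · rw [Complex.cpow_ofReal_re]
    congr 2

theorem C1 (d K : ℕ) (hd : 1 ≤ d) (a : ℕ → ℂ) (M α : ℝ) (hM : 0 ≤ M) (hα : 100 * α ^ 2 ≤ d)
    (h : ∀ z : ℂ, 0 < z.re → ‖∑ k ∈ Finset.Ico d K, a k * Complex.exp (-(z * k))‖ ≤
      M * Real.exp (α ^ 2 * ‖z‖ ^ 2 / z.re))
    (q : ℝ) (hq : 1 < q) (hq2 : q ≤ 2) (r τ : ℝ) (hr : 3 ≤ r * Real.cos (Real.pi / (2 * q)))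
    (hτ : 0 < τ) (hτr : τ ≤ r) :
    ‖∑ k ∈ Finset.Ico d K, a k * Complex.exp (-((τ : ℂ) * k))‖ ≤
      M * Real.exp (α ^ 2 * τ / Real.cos (Real.pi / (2 * q)) ^ 2 -
        d / 2 * τ * (τ / r) ^ (q - 1)) := by
  have hpi := Real.pi_pos
  have hq0 : 0 < q := by linarith
  have hr0 : 0 < r := lt_of_lt_of_le hτ hτr
  set c : ℝ := Real.cos (Real.pi / (2 * q)) with hc
  have hang : Real.pi / (2 * q) < Real.pi / 2 := by
    apply div_lt_div_of_pos_left hpi (by norm_num) (by linarith)
  have hang0 : 0 < Real.pi / (2 * q) := by positivity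
  have hc0 : 0 < c := Real.cos_pos_of_mem_Ioo ⟨by linarith, hang⟩
  set Φ : ℂ → ℂ := fun z => ∑ k ∈ Finset.Ico d K, a k * Complex.exp (-(z * k)) with hΦ
  have hΦd : Differentiable ℂ Φ := by
    rw [hΦ]
    fun_prop
  set ζ : ℂ → ℂ := fun w => w ^ ((q⁻¹ : ℝ) : ℂ) with hζ
  set B : ℝ := d / 2 * r ^ (1 - q) with hB
  have hB0 : 0 ≤ B := by positivity
  set H : ℂ → ℂ := fun w => Φ (ζ w) * Complex.exp (-((α ^ 2 / c ^ 2 : ℝ) : ℂ) * ζ w + (B : ℂ) * w)
    with hH
  have hcosle : ∀ w : ℂ, 0 ≤ w.re → c ≤ Real.cos (Complex.arg w / q) ∧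
      Real.cos (Complex.arg w) ≤ Real.cos (Complex.arg w / q) := by
    intro w hw
    have h1 : |Complex.arg w| ≤ Real.pi / 2 := Complex.abs_arg_le_pi_div_two_iff.mpr hw
    have h2 : |Complex.arg w / q| = |Complex.arg w| / q := by
      rw [abs_div, abs_of_pos hq0]
    have h3 : |Complex.arg w| / q ≤ |Complex.arg w| := div_le_self (abs_nonneg _) hq.le
    constructor
    · rw [hc, ← Real.cos_abs (Complex.arg w / q), h2]
      apply Real.cos_le_cos_of_nonneg_of_le_pi (by positivity) (by linarith)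
      rw [div_mul_eq_div_div]
      exact div_le_div_of_nonneg_right h1 hq0.le
    · rw [← Real.cos_abs (Complex.arg w / q), h2, ← Real.cos_abs (Complex.arg w)]
      exact Real.cos_le_cos_of_nonneg_of_le_pi (by positivity) (by linarith) h3
  -- norm of H
  have hHn : ∀ w : ℂ, ‖H w‖ = ‖Φ (ζ w)‖ * Real.exp (-(α ^ 2 / c ^ 2) * (ζ w).re + B * w.re) := by
    intro w
    rw [hH]
    simp only
    rw [norm_mul, Complex.norm_exp]
    congr 2
    rw [Complex.add_re, ← Complex.ofReal_neg, Complex.re_ofReal_mul, Complex.re_ofReal_mul]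
  set U : Set ℂ := {w | 0 < w.re ∧ ‖w‖ < r ^ q} with hU
  have hUo : IsOpen U := by
    rw [hU]
    exact (isOpen_lt continuous_const Complex.continuous_re).inter
      (isOpen_lt continuous_norm continuous_const)
  have hUcl : closure U ⊆ {w | 0 ≤ w.re ∧ ‖w‖ ≤ r ^ q} := by
    apply closure_minimal
    · intro w hw
      exact ⟨hw.1.le, hw.2.le⟩
    · exact (isClosed_le continuous_const Complex.continuous_re).inter
        (isClosed_le continuous_norm continuous_const)
  have hUb : Bornology.IsBounded U := by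
    apply (Metric.isBounded_closedBall (x := (0 : ℂ)) (r := r ^ q)).subset
    intro w hw
    rw [mem_closedBall_zero_iff]
    exact hw.2.le
  have hζc : ∀ w : ℂ, 0 ≤ w.re → ContinuousAt ζ w := by
    intro w hw
    exact Complex.continuousAt_cpow_const_of_re_pos (Or.inl hw)
      (by rw [Complex.ofReal_re]; positivity)
  have hζd : ∀ w : ℂ, 0 < w.re → DifferentiableAt ℂ ζ w := by
    intro w hw
    exact (differentiableAt_id).cpow_const (Or.inl hw)
  have hd : DiffContOnCl ℂ H U := by
    constructor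
    · intro w hw
      apply DifferentiableAt.differentiableWithinAt
      have h1 := hζd w hw.1
      rw [hH]
      exact ((hΦd.differentiableAt).comp w h1).mul
        (((h1.const_mul _).add (differentiableAt_id.const_mul _)).cexp)
    · intro w hw
      apply ContinuousAt.continuousWithinAt
      have h1 := hζc w (hUcl hw).1
      rw [hH]
      have h2 : ContinuousAt (fun w => Φ (ζ w)) w := by
        exact ContinuousAt.comp (f := ζ) (g := Φ) hΦd.continuous.continuousAt h1
      exact h2.mul (((continuousAt_const.mul h1).add (continuousAt_const.mul continuousAt_id)).cexp)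
  have hfront : ∀ w ∈ frontier U, ‖H w‖ ≤ M := by
    intro w hw
    have hwcl : w ∈ closure U := frontier_subset_closure hw
    have hwU : w ∉ U := by
      rw [hUo.frontier_eq] at hw
      exact hw.2
    obtain ⟨hre, hnorm⟩ := hUcl hwcl
    by_cases hw0 : w = 0
    · -- the origin
      subst hw0
      have hζ0 : ζ 0 = 0 := by
        rw [hζ]
        simp only
        rw [Complex.zero_cpow]
        rw [Ne, Complex.ofReal_eq_zero]
        positivity
      rw [hHn, hζ0]
      simp only [Complex.zero_re, mul_zero, add_zero, Real.exp_zero, mul_one]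
      have hlim1 : Tendsto (fun s : ℝ => ‖Φ (s : ℂ)‖) (𝓝[>] 0) (𝓝 ‖Φ 0‖) := by
        have : Continuous fun s : ℝ => ‖Φ (s : ℂ)‖ :=
          (hΦd.continuous.comp Complex.continuous_ofReal).norm
        have h2 := (this.tendsto 0).mono_left (nhdsWithin_le_nhds (s := Set.Ioi 0))
        simpa using h2
      have hlim2 : Tendsto (fun s : ℝ => M * Real.exp (α ^ 2 * s)) (𝓝[>] 0) (𝓝 M) := by
        have : Continuous fun s : ℝ => M * Real.exp (α ^ 2 * s) := by fun_prop
        have h2 := (this.tendsto 0).mono_left (nhdsWithin_le_nhds (s := Set.Ioi 0))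
        simpa using h2
      refine le_of_tendsto_of_tendsto hlim1 hlim2 ?_
      filter_upwards [self_mem_nhdsWithin] with s hs
      have hs' : (0 : ℝ) < s := hs
      have h1 := h (s : ℂ) (by simpa using hs')
      refine h1.trans (le_of_eq ?_)
      congr 2
      rw [Complex.norm_real, Complex.ofReal_re, Real.norm_eq_abs, sq_abs]
      field_simp
    · have hpol := cpow_polar w q
      obtain ⟨hn1, hn2⟩ := hpol
      change ‖ζ w‖ = _ at hn1
      change (ζ w).re = _ at hn2
      have hwn : 0 < ‖w‖ := norm_pos_iff.mpr hw0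
      have hs0 : 0 < ‖w‖ ^ q⁻¹ := Real.rpow_pos_of_pos hwn _
      have hcos := hcosle w hre
      by_cases hre0 : w.re = 0
      · -- on the rays
        have hcosq : Real.cos (Complex.arg w / q) = c := by
          have h1 : |Complex.arg w| = Real.pi / 2 := by
            apply le_antisymm (Complex.abs_arg_le_pi_div_two_iff.mpr hre)
            by_contra hlt
            rw [not_le, Complex.abs_arg_lt_pi_div_two_iff] at hlt
            rcases hlt with h2 | h2
            · exact h2.ne' hre0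
            · exact hw0 h2
          rw [hc, ← Real.cos_abs (Complex.arg w / q), abs_div, abs_of_pos hq0, h1, div_mul_eq_div_div]
        rw [hcosq] at hn2
        have hpos : 0 < (ζ w).re := by rw [hn2]; positivity
        have h1 := h (ζ w) hpos
        rw [hHn, hre0, mul_zero, add_zero]
        calc ‖Φ (ζ w)‖ * Real.exp (-(α ^ 2 / c ^ 2) * (ζ w).re)
            ≤ M * Real.exp (α ^ 2 * ‖ζ w‖ ^ 2 / (ζ w).re) *
              Real.exp (-(α ^ 2 / c ^ 2) * (ζ w).re) := by
                exact mul_le_mul_of_nonneg_right h1 (Real.exp_pos _).le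
          _ = M := by
            rw [mul_assoc, ← Real.exp_add, hn1, hn2]
            have : α ^ 2 * (‖w‖ ^ q⁻¹) ^ 2 / (‖w‖ ^ q⁻¹ * c) +
                -(α ^ 2 / c ^ 2) * (‖w‖ ^ q⁻¹ * c) = 0 := by
              field_simp
              ring
            rw [this, Real.exp_zero, mul_one]
      · -- on the arc
        have hre1 : 0 < w.re := lt_of_le_of_ne hre (Ne.symm hre0)
        have hwr : ‖w‖ = r ^ q := by
          by_contra hne
          exact hwU ⟨hre1, lt_of_le_of_ne hnorm hne⟩
        have hsr : ‖w‖ ^ q⁻¹ = r := by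
          rw [hwr, ← Real.rpow_mul hr0.le, mul_inv_cancel₀ hq0.ne', Real.rpow_one]
        rw [hsr] at hn1 hn2
        have h3 : 3 ≤ (ζ w).re := by
          rw [hn2]
          exact hr.trans (mul_le_mul_of_nonneg_left hcos.1 hr0.le)
        have h1 := half_plane d K a M α h hM (ζ w) (by linarith)
        have hBw : B * w.re ≤ d / 2 * (ζ w).re := by
          have hwre : w.re = ‖w‖ * Real.cos (Complex.arg w) := (Complex.norm_mul_cos_arg w).symm
          have h5 : B * w.re = d / 2 * (r * Real.cos (Complex.arg w)) := by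
            rw [hwre, hwr, hB]
            have : r ^ (1 - q) * r ^ q = r := by
              rw [← Real.rpow_add hr0]
              simp
            calc (d : ℝ) / 2 * r ^ (1 - q) * (r ^ q * Real.cos (Complex.arg w))
                = d / 2 * ((r ^ (1 - q) * r ^ q) * Real.cos (Complex.arg w)) := by ring
              _ = _ := by rw [this]
          rw [h5, hn2]
          apply mul_le_mul_of_nonneg_left _ (by positivity)
          exact mul_le_mul_of_nonneg_left hcos.2 hr0.le
        rw [hHn]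
        have hexp : α ^ 2 * (1 + Real.pi ^ 2) + d - d * (ζ w).re +
            (-(α ^ 2 / c ^ 2) * (ζ w).re + B * w.re) ≤ 0 := by
          have e1 : 0 ≤ α ^ 2 / c ^ 2 * (ζ w).re := by
            have : 0 ≤ (ζ w).re := by linarith
            positivity
          have e2 : (d : ℝ) / 2 * 3 ≤ d / 2 * (ζ w).re := by
            apply mul_le_mul_of_nonneg_left h3 (by positivity)
          have e3 : Real.pi ^ 2 ≤ 16 := by
            have := Real.pi_le_four
            nlinarith
          have e4 : α ^ 2 * (1 + Real.pi ^ 2) ≤ d / 2 := by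
            nlinarith [sq_nonneg α]
          nlinarith
        calc ‖Φ (ζ w)‖ * Real.exp (-(α ^ 2 / c ^ 2) * (ζ w).re + B * w.re)
            ≤ M * Real.exp (α ^ 2 * (1 + Real.pi ^ 2) + d - d * (ζ w).re) *
              Real.exp (-(α ^ 2 / c ^ 2) * (ζ w).re + B * w.re) :=
                mul_le_mul_of_nonneg_right h1 (Real.exp_pos _).le
          _ = M * Real.exp (α ^ 2 * (1 + Real.pi ^ 2) + d - d * (ζ w).re +
              (-(α ^ 2 / c ^ 2) * (ζ w).re + B * w.re)) := by
                rw [mul_assoc, ← Real.exp_add]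
          _ ≤ M * 1 := by
            exact mul_le_mul_of_nonneg_left (Real.exp_le_one_iff.mpr hexp) hM
          _ = M := mul_one M
  -- the point
  have hpt : ((τ ^ q : ℝ) : ℂ) ∈ closure U := by
    have hτq : 0 < τ ^ q := Real.rpow_pos_of_pos hτ _
    have hle : τ ^ q ≤ r ^ q := Real.rpow_le_rpow hτ.le hτr hq0.le
    rw [Metric.mem_closure_iff]
    intro ε hε
    refine ⟨((τ ^ q - min (ε / 2) (τ ^ q / 2) : ℝ) : ℂ), ?_, ?_⟩
    · have h1 : min (ε / 2) (τ ^ q / 2) ≤ τ ^ q / 2 := min_le_right _ _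
      have h2 : 0 < min (ε / 2) (τ ^ q / 2) := lt_min (by linarith) (by linarith)
      constructor
      · rw [Complex.ofReal_re]; linarith
      · rw [Complex.norm_real, Real.norm_eq_abs, abs_of_pos (by linarith)]
        linarith
    · have h1 : min (ε / 2) (τ ^ q / 2) ≤ ε / 2 := min_le_left _ _
      have h2 : 0 < min (ε / 2) (τ ^ q / 2) := lt_min (by linarith) (by linarith)
      rw [dist_eq_norm, ← Complex.ofReal_sub, Complex.norm_real, Real.norm_eq_abs,
        sub_sub_cancel, abs_of_pos h2]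
      linarith
  have hmain := Complex.norm_le_of_forall_mem_frontier_norm_le hUb hd hfront hpt
  have hζτ : ζ ((τ ^ q : ℝ) : ℂ) = (τ : ℂ) := by
    rw [hζ]
    simp only
    rw [← Complex.ofReal_cpow (Real.rpow_pos_of_pos hτ _).le, ← Real.rpow_mul hτ.le,
      mul_inv_cancel₀ hq0.ne', Real.rpow_one]
  rw [hHn, hζτ, Complex.ofReal_re, Complex.ofReal_re] at hmain
  have hBτ : B * τ ^ q = d / 2 * τ * (τ / r) ^ (q - 1) := by
    rw [hB, Real.div_rpow hτ.le hr0.le, Real.rpow_sub hr0, Real.rpow_sub hτ, Real.rpow_sub hr0,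
      Real.rpow_one, Real.rpow_one]
    field_simp
  rw [hBτ] at hmain
  change ‖Φ (τ : ℂ)‖ ≤ _
  have hkey : ‖Φ (τ : ℂ)‖ = (‖Φ (τ : ℂ)‖ * Real.exp (-(α ^ 2 / c ^ 2) * τ +
      d / 2 * τ * (τ / r) ^ (q - 1))) *
        Real.exp (α ^ 2 * τ / c ^ 2 - d / 2 * τ * (τ / r) ^ (q - 1)) := by
    rw [mul_assoc, ← Real.exp_add]
    have : -(α ^ 2 / c ^ 2) * τ + d / 2 * τ * (τ / r) ^ (q - 1) +
        (α ^ 2 * τ / c ^ 2 - d / 2 * τ * (τ / r) ^ (q - 1)) = 0 := by ring
    rw [this, Real.exp_zero, mul_one]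
  rw [hkey]
  exact mul_le_mul_of_nonneg_right hmain (Real.exp_pos _).le

end Pool.Agent.H91.Heat
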